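import Pool.Agent.H5.Dem.Stmts

/-!
# Project DEM, module MAX

Proper closed subgroups of a closed subgroup `V` of a pro-2 group lie in the kernel of a
non-trivial continuous homomorphism `V → F₂`.
-/

set_option autoImplicit false

namespace Pool.Agent.H5.Dem

namespace MAXaux

/-- Open normal subgroups form a basis of neighbourhoods of `1` in a pro-`p` group. -/
theorem exists_openNormal {p : ℕ} {G : Type} [Group G] [TopologicalSpace G] (hG : IsProP p G)
    {O : Set G} (hO : IsOpen O) (h1 : (1 : G) ∈ O) :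
    ∃ N : Subgroup G, N.Normal ∧ IsOpen (N : Set G) ∧ (N : Set G) ⊆ O := by
  have := hG.topGroup
  have := hG.compact
  have := hG.hausdorff
  have : TotallyDisconnectedSpace G := hG.disconnected
  obtain ⟨H, hH⟩ := ProfiniteGrp.exist_openNormalSubgroup_sub_open_nhds_of_one hO h1
  exact ⟨H.toSubgroup, H.isNormal', H.isOpen', hH⟩

/-- A subgroup of index two gives a character. -/
theorem exists_char {G : Type} [Group G] [TopologicalSpace G] [IsTopologicalGroup G]
    (V : Subgroup G) (W : Subgroup V) (hW : W.index = 2) (hWo : IsOpen (W : Set V)) :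
    ∃ ω : H1 2 V, ω ≠ 0 ∧ ∀ g : V, g ∈ W → ω.1 g = 0 := by
  classical
  have hcl : IsClosed (W : Set V) := Subgroup.isClosed_of_isOpen W hWo
  have hloc : IsLocallyConstant (fun g : V => if g ∈ W then (0 : ZMod 2) else 1) := by
    rw [IsLocallyConstant.iff_exists_open]
    intro g
    by_cases hg : g ∈ W
    · exact ⟨W, hWo, hg, fun h hh => by
        have hh' : h ∈ W := hh
        simp [hg, hh']⟩
    · exact ⟨(W : Set V)ᶜ, hcl.isOpen_compl, hg, fun h hh => by
        have hh' : h ∉ W := hh
        simp [hg, hh']⟩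
  have hadd : ∀ g h : V, (if g * h ∈ W then (0 : ZMod 2) else 1) =
      (if g ∈ W then (0 : ZMod 2) else 1) + (if h ∈ W then (0 : ZMod 2) else 1) := by
    intro g h
    have hm := Subgroup.mul_mem_iff_of_index_two hW (a := g) (b := h)
    by_cases hg : g ∈ W <;> by_cases hh : h ∈ W
    · have : g * h ∈ W := hm.2 ⟨fun _ => hh, fun _ => hg⟩
      simp [hg, hh, this]
    · have : g * h ∉ W := fun hc => hh ((hm.1 hc).1 hg)
      simp [hg, hh, this]
    · have : g * h ∉ W := fun hc => hg ((hm.1 hc).2 hh)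
      simp [hg, hh, this]
    · have : g * h ∈ W := hm.2 ⟨fun h => absurd h hg, fun h' => absurd h' hh⟩
      simp only [hg, hh, this, if_true, if_false]
      decide
  refine ⟨⟨fun g => if g ∈ W then 0 else 1, hloc, hadd⟩, ?_, fun g hg => by simp [hg]⟩
  intro h0
  have hne : W ≠ ⊤ := by
    rintro rfl
    simp at hW
  obtain ⟨g, -, hg⟩ := SetLike.exists_of_lt (lt_top_iff_ne_top.2 hne)
  have := congrFun (congrArg Subtype.val h0) g
  simp [hg] at this

end MAXaux

open MAXaux in
theorem max : MAXStmt := by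
  intro G _ _ hG V P hPV hV hP hne
  have := hG.topGroup
  have := hG.compact
  have := hG.hausdorff
  classical
  obtain ⟨v, hv, hvP⟩ := SetLike.exists_of_lt (lt_of_le_of_ne hPV hne)
  -- an open normal subgroup with `v⁻¹ P ∩ N = ∅`
  have hO : IsOpen {g : G | v * g ∉ P} := by
    have : IsOpen ((P : Set G)ᶜ) := hP.isOpen_compl
    exact this.preimage (continuous_const.mul continuous_id)
  obtain ⟨N, hNn, hNo, hN⟩ := exists_openNormal hG hO (by simpa using hvP)
  obtain ⟨k, hk⟩ := hG.index N hNn hNo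
  -- the finite quotient of `V`
  let N' : Subgroup V := N.subgroupOf V
  have hN'n : N'.Normal := Subgroup.normal_subgroupOf
  have hN'o : IsOpen (N' : Set V) := hNo.preimage continuous_subtype_val
  have hdvd : N'.index ∣ 2 ^ k := by
    rw [← hk]
    exact Subgroup.relIndex_dvd_index_of_normal N V
  obtain ⟨l, -, hl⟩ := (Nat.dvd_prime_pow Nat.prime_two).1 hdvd
  have hfin : Finite (V ⧸ N') := by
    apply Nat.finite_of_card_ne_zero
    rw [← Subgroup.index_eq_card, hl]
    positivity
  have hcard : Nat.card (V ⧸ N') = 2 ^ l := by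
    rw [← Subgroup.index_eq_card, hl]
  let P' : Subgroup (V ⧸ N') := (P.subgroupOf V).map (QuotientGroup.mk' N')
  have hP'v : (QuotientGroup.mk' N' ⟨v, hv⟩) ∉ P' := by
    rintro ⟨q, hq, hqv⟩
    have hq' : (q : G) ∈ P := hq
    have h1 : q⁻¹ * (⟨v, hv⟩ : V) ∈ N' := QuotientGroup.eq.1 hqv
    have h2 : ((q : G)⁻¹ * v) ∈ N := h1
    have h3 : (v⁻¹ * (q : G)) ∈ N := by
      have := N.inv_mem h2
      simpa using this
    have h4 := hN h3
    simp only [Set.mem_ofPred_eq, mul_inv_cancel_left] at h4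
    exact h4 hq'
  have hP'dvd : Nat.card P' ∣ 2 ^ l := hcard ▸ Subgroup.card_subgroup_dvd_card P'
  obtain ⟨n, hnl, hn⟩ := (Nat.dvd_prime_pow Nat.prime_two).1 hP'dvd
  have hnl' : n ≠ l := by
    rintro rfl
    have : P' = ⊤ := by
      apply Subgroup.eq_top_of_card_eq
      rw [hn, hcard]
    exact hP'v (this ▸ Subgroup.mem_top _)
  have hl1 : 1 ≤ l := by omega
  obtain ⟨K, hK, hPK⟩ := Sylow.exists_subgroup_card_pow_prime_le 2
    (n := n) (m := l - 1) (by rw [hcard]; exact pow_dvd_pow 2 (by omega)) P' hn (by omega)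
  have hKi : K.index = 2 := by
    have h := K.card_mul_index
    rw [hK, hcard] at h
    have h2 : 2 ^ l = 2 ^ (l - 1) * 2 := by
      rw [← pow_succ]; congr 1; omega
    rw [h2] at h
    exact Nat.eq_of_mul_eq_mul_left (by positivity) h
  let W : Subgroup V := K.comap (QuotientGroup.mk' N')
  have hWi : W.index = 2 := by
    rw [Subgroup.index_comap_of_surjective _ (QuotientGroup.mk'_surjective N'), hKi]
  have hN'W : N' ≤ W := by
    intro g hg
    have : QuotientGroup.mk' N' g = 1 := (QuotientGroup.eq_one_iff g).2 hg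
    show QuotientGroup.mk' N' g ∈ K
    rw [this]
    exact K.one_mem
  have hWo : IsOpen (W : Set V) := Subgroup.isOpen_mono hN'W hN'o
  obtain ⟨ω, hω, hω'⟩ := exists_char V W hWi hWo
  refine ⟨ω, hω, fun g => hω' _ ?_⟩
  show QuotientGroup.mk' N' _ ∈ K
  exact hPK ⟨⟨g, hPV g.2⟩, g.2, rfl⟩

end Pool.Agent.H5.Dem
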